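import Pool.Agent.Y223.G.Stm3

/-!
# G3-LDG: linear disjointness over a Dedekind domain
-/

set_option autoImplicit false

namespace Pool.Agent.Y563.GL

open Pool.Agent.Y223.G
open scoped TensorProduct nonZeroDivisors

theorem t_LDG : S_LDG := by
  intro O L K _ _ _ _ _ _ _ hinj hO hL A B W W' hA hB hd
  choose g hg using hO
  have hLK : Function.Injective (algebraMap L K) := (algebraMap L K).injective
  let γ : O →+* L :=
    { toFun := g
      map_one' := hLK (by rw [hg, map_one, map_one])
      map_mul' := fun x y => hLK (by rw [hg, map_mul, map_mul, hg, hg])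
      map_zero' := hLK (by rw [hg, map_zero, map_zero])
      map_add' := fun x y => hLK (by rw [hg, map_add, map_add, hg, hg]) }
  let _ : Algebra O L := γ.toAlgebra
  have hγ : ∀ o, algebraMap L K (algebraMap O L o) = algebraMap O K o := hg
  have hst : IsScalarTower O L K := IsScalarTower.of_algebraMap_eq fun o => (hγ o).symm
  have hOL : Function.Injective (algebraMap O L) := by
    intro x y hxy
    apply hinj
    rw [← hγ, ← hγ, hxy]
  have hfr : IsLocalization O⁰ L := by
    rw [isLocalization_iff]
    refine ⟨fun y => ?_, fun z => ?_, fun {x y} hxy => ⟨1, by rw [hOL hxy]⟩⟩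
    · rw [isUnit_iff_ne_zero]
      intro h
      exact nonZeroDivisors.ne_zero y.2 (hOL (by rw [h, map_zero]))
    · obtain ⟨a, b, hb, hab⟩ := hL z
      refine ⟨⟨a, ⟨b, mem_nonZeroDivisors_of_ne_zero hb⟩⟩, hLK ?_⟩
      rw [map_mul, hγ, hγ]
      exact hab
  have htf : ∀ (S : Type) [CommRing S] [IsDomain S] [Algebra O S],
      Function.Injective (algebraMap O S) → Module.Flat O S := by
    intro S _ _ _ hS
    have : FaithfulSMul O S := (faithfulSMul_iff_algebraMap_injective O S).2 hS
    infer_instance
  have hAf : Module.Flat O A := htf A (by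
    intro x y hxy
    exact hinj (congrArg Subtype.val hxy))
  have hWf : Module.Flat O W' := htf W' (by
    intro x y hxy
    exact hinj (congrArg (fun z : W' => (z : K)) hxy))
  let f1 : A →ₗ[O] W :=
    { toFun := fun a => ⟨a.1, hA a.1 a.2⟩
      map_add' := fun _ _ => rfl
      map_smul' := fun _ _ => rfl }
  let f2 : B →ₗ[O] W' :=
    { toFun := fun a => ⟨a.1, hB a.1 a.2⟩
      map_add' := fun _ _ => rfl
      map_smul' := fun _ _ => rfl }
  have h1 : Function.Injective f1 := by
    intro x y hxy
    exact Subtype.ext (congrArg (fun z : W => (z : K)) hxy)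
  have h2 : Function.Injective f2 := by
    intro x y hxy
    exact Subtype.ext (congrArg (fun z : W' => (z : K)) hxy)
  have h3 : Function.Injective (TensorProduct.map f1 f2) := by
    rw [← LinearMap.rTensor_comp_lTensor, LinearMap.coe_comp]
    exact (Module.Flat.rTensor_preserves_injective_linearMap _ h1).comp
      (Module.Flat.lTensor_preserves_injective_linearMap _ h2)
  let e : W ⊗[L] W' ≃ₐ[L] W ⊗[O] W' := IsLocalization.algebraTensorEquiv O⁰ L W W'
  have he : ∀ (w : W) (w' : W'), e.symm (w ⊗ₜ[O] w') = w ⊗ₜ[L] w' := by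
    intro w w'
    rw [AlgEquiv.symm_apply_eq]
    rfl
  rw [Subalgebra.linearDisjoint_iff_injective] at hd ⊢
  have h4 : ∀ x, A.mulMap B x = W.mulMap W' (e.symm (TensorProduct.map f1 f2 x)) := by
    intro x
    induction x using TensorProduct.induction_on with
    | zero => simp only [map_zero]
    | tmul a b =>
      rw [TensorProduct.map_tmul, he]
      rfl
    | add x y hx hy => simp only [map_add, hx, hy]
  intro x y hxy
  rw [h4, h4] at hxy
  exact h3 (e.symm.injective (hd hxy))

end Pool.Agent.Y563.GL
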