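import Pool.Agent.Y223.G.Stm2

/-!
# G-WCH: regularity of a graded algebra with weighted regular centres
-/

set_option autoImplicit false

namespace Pool.Agent.Y563.GW

open IsLocalRing Pool.Agent.W418.LU2 Pool.Agent.Y223.G

/-- regularity at a prime from a localization -/
theorem reg_of_loc {A B : Type} [CommRing A] [CommRing B] [Algebra A B] (M : Submonoid A)
    [IsLocalization M B] (P : Ideal A) [hP : P.IsPrime] (hd : Disjoint (M : Set A) (P : Set A))
    (h : ∀ (p : Ideal B) [p.IsPrime], p = P.map (algebraMap A B) →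
      IsRegularLocalRing (Localization.AtPrime p)) :
    IsRegularLocalRing (Localization.AtPrime P) := by
  have hp : (P.map (algebraMap A B)).IsPrime := IsLocalization.isPrime_of_isPrime_disjoint M B P hP hd
  have hc : (P.map (algebraMap A B)).comap (algebraMap A B) = P :=
    IsLocalization.under_map_of_isPrime_disjoint M B hP hd
  set p := P.map (algebraMap A B) with hpdef
  have hr : IsRegularLocalRing (Localization.AtPrime p) := h p rfl
  have h2 : IsLocalization.AtPrime (Localization.AtPrime p) (p.comap (algebraMap A B)) :=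
    IsLocalization.isLocalization_isLocalization_atPrime_isLocalization M
      (Localization.AtPrime p) p
  have h3 : IsLocalization.AtPrime (Localization.AtPrime p) P := by
    have h4 : (p.comap (algebraMap A B)).primeCompl = P.primeCompl := by
      ext x
      change x ∉ p.comap (algebraMap A B) ↔ x ∉ P
      rw [hc]
    change IsLocalization P.primeCompl _
    rw [← h4]
    exact h2
  exact IsRegularLocalRing.of_ringEquiv
    (IsLocalization.algEquiv P.primeCompl (Localization.AtPrime p)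
      (Localization.AtPrime P)).toRingEquiv

section setup

variable {k K : Type} [CommRing k] [Field K] [Algebra k K] {R : Subalgebra k (LP K)}
  {C : Type} [CommRing C] {j : C →+* K}

lemma T_pow (n : ℕ) : (hm (-1) 1 : LP K) ^ n = hm (-(n : ℤ)) 1 := by
  rw [hm_pow, one_pow]
  congr 1
  ring

lemma mem_neg (hT : hm (-1) 1 ∈ R) {d : ℤ} (hd : d ≤ 0) {y : K} (hy : hm 0 y ∈ R) :
    hm d y ∈ R := by
  obtain ⟨n, hn⟩ := Int.eq_ofNat_of_zero_le (a := -d) (by omega)
  have h1 : hm d y = (hm (-1) 1 : LP K) ^ n * hm 0 y := by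
    rw [T_pow, hm_mul, one_mul]
    congr 1
    have : -d = (n : ℤ) := hn
    omega
  rw [h1]
  exact R.mul_mem (R.pow_mem hT n) hy

lemma mem_loc_iff (hgr : Gr R) (hT : hm (-1) 1 ∈ R) (h0 : ∀ (d : ℤ) x, hm d x ∈ R → hm 0 x ∈ R)
    (f : LP K) : f ∈ loc R (hm (-1) 1) hT ↔ ∀ d, hm 0 (f.coeff d) ∈ R := by
  rw [mem_loc]
  constructor
  · rintro ⟨n, hn⟩ d
    rw [T_pow] at hn
    have h1 := hgr _ hn (d - n)
    rw [coeff_hm_mul, one_mul] at h1
    have h2 : d - (n : ℤ) - -(n : ℤ) = d := by ring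
    rw [h2] at h1
    exact h0 _ _ h1
  · intro h
    refine ⟨f.coeff.support.sup Int.natAbs, ?_⟩
    set n := f.coeff.support.sup Int.natAbs with hn
    rw [T_pow]
    apply mem_of_comp
    intro e
    rw [coeff_hm_mul, one_mul]
    by_cases h1 : f.coeff (e - -(n : ℤ)) = 0
    · rw [h1, hm_zero]
      exact R.zero_mem
    · have h2 : Int.natAbs (e - -(n : ℤ)) ≤ n := by
        rw [hn]
        exact Finset.le_sup (f := Int.natAbs) (Finsupp.mem_support_iff.2 h1)
      exact mem_neg hT (by omega) (h _)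

theorem regular_case1 (hgr : Gr R) (hT : hm (-1) 1 ∈ R)
    (h0 : ∀ (d : ℤ) x, hm d x ∈ R → hm 0 x ∈ R) (hj : Function.Injective j)
    (hC : ∀ y : K, hm 0 y ∈ R ↔ ∃ c, j c = y) [IsRegularRing C] :
    IsRegularRing (loc R (hm (-1) 1) hT) := by
  let ψ : AddMonoidAlgebra C ℤ →+* LP K := AddMonoidAlgebra.mapRingHom ℤ j
  have hψ : ∀ g d, (ψ g).coeff d = j (g.coeff d) := fun g d =>
    AddMonoidAlgebra.coeff_mapRingHom j g d
  have hmem : ∀ g, ψ g ∈ loc R (hm (-1) 1) hT := by
    intro g
    rw [mem_loc_iff hgr hT h0]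
    intro d
    rw [hψ, hC]
    exact ⟨_, rfl⟩
  let φ : AddMonoidAlgebra C ℤ →+* loc R (hm (-1) 1) hT := ψ.codRestrict _ hmem
  have hφ : Function.Bijective φ := by
    constructor
    · intro a b hab
      have h1 : ψ a = ψ b := congrArg Subtype.val hab
      apply AddMonoidAlgebra.coeff_injective
      ext d
      apply hj
      rw [← hψ, ← hψ, h1]
    · rintro ⟨f, hf⟩
      have h1 := (mem_loc_iff hgr hT h0 f).1 hf
      simp_rw [hC] at h1
      choose c hc using h1
      refine ⟨∑ d ∈ f.coeff.support, AddMonoidAlgebra.single d (c d), ?_⟩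
      apply Subtype.ext
      change ψ _ = f
      rw [map_sum]
      conv_rhs => rw [eq_sum_hm f]
      refine Finset.sum_congr rfl fun d _ => ?_
      change AddMonoidAlgebra.mapRingHom ℤ j (AddMonoidAlgebra.single d (c d)) = _
      rw [AddMonoidAlgebra.mapRingHom_single, hc]
      rfl
  have h2 : IsRegularRing (AddMonoidAlgebra C ℤ) := by
    have h3 : IsLocalization.Away (Polynomial.X : Polynomial C) (LaurentPolynomial C) :=
      LaurentPolynomial.isLocalization
    exact regular_of_isLocalization (B := LaurentPolynomial C)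
      (Submonoid.powers (Polynomial.X : Polynomial C))
  exact IsRegularRing.of_ringEquiv (RingEquiv.ofBijective φ hφ)

end setup

/-- the elements of the weighted ideals are in the Rees algebra -/
theorem FI_mem {B K : Type} [CommRing B] [Field K] [Algebra B K] {ι : Type} [Fintype ι]
    (x : ι → B) (a : ι → ℕ) (R' : Subalgebra B (LP K)) (hT : hm (-1) 1 ∈ R')
    (hx : ∀ i, hm (a i) (algebraMap B K (x i)) ∈ R') (n : ℕ) (b : B)
    (hb : b ∈ FI x a n) : hm n (algebraMap B K b) ∈ R' := by
  unfold FI at hb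
  induction hb using Submodule.span_induction with
  | mem b hb =>
    obtain ⟨m, hmn, rfl⟩ := hb
    have h1 : hm n (algebraMap B K (∏ i, x i ^ m i)) =
        (hm (-1) 1 : LP K) ^ (∑ i, a i * m i - n) *
          ∏ i, (hm (a i) (algebraMap B K (x i))) ^ m i := by
      simp_rw [hm_pow]
      rw [hm_prod, hm_mul, one_pow, one_mul, map_prod]
      simp_rw [map_pow]
      congr 1
      rw [Nat.cast_sub hmn]
      push_cast
      have h2 : ∀ i, (m i : ℤ) * a i = a i * m i := fun i => mul_comm _ _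
      simp_rw [h2]
      ring
    rw [h1]
    exact R'.mul_mem (R'.pow_mem hT _) (R'.prod_mem fun i _ => R'.pow_mem (hx i) _)
  | zero => rw [map_zero, hm_zero]; exact R'.zero_mem
  | add x y _ _ hx hy => rw [map_add, hm_add]; exact R'.add_mem hx hy
  | smul r x _ hx =>
    have h1 : hm n (algebraMap B K (r • x)) = algebraMap B (LP K) r * hm n (algebraMap B K x) := by
      rw [smul_eq_mul, map_mul, algebraMap_LP, hm_mul, zero_add]
    rw [h1]
    exact R'.mul_mem (R'.algebraMap_mem r) hx

theorem case2 (hreg : S_WREG) {k K : Type} [CommRing k] [Field K] [Algebra k K]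
    {R : Subalgebra k (LP K)} (hgr : Gr R) (hT : hm (-1) 1 ∈ R)
    (h0 : ∀ (d : ℤ) x, hm d x ∈ R → hm 0 x ∈ R) {C : Type} [CommRing C] {j : C →+* K}
    (hj : Function.Injective j) (hC : ∀ y : K, hm 0 y ∈ R ↔ ∃ c, j c = y) [IsRegularRing C]
    (hyp : ∀ (Q : Ideal C) [Q.IsPrime], (∀ (n : ℕ) (y : C), 0 < n → hm n (j y) ∈ R → y ∈ Q) →
      ∃ (ι : Type) (_ : Fintype ι) (x : ι → C) (a : ι → ℕ),
        (∀ i, 0 < a i ∧ hm (a i) (j (x i)) ∈ R) ∧
        Ind (fun i => algebraMap C (Localization.AtPrime Q) (x i)) ∧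
        ∀ (n : ℕ) (y : C), hm n (j y) ∈ R →
          algebraMap C (Localization.AtPrime Q) y ∈
            FI (fun i => algebraMap C (Localization.AtPrime Q) (x i)) a n)
    (PP : Ideal R) [PP.IsPrime] (hPT : (⟨hm (-1) 1, hT⟩ : R) ∈ PP) :
    IsRegularLocalRing (Localization.AtPrime PP) := by
  have h0C : ∀ c, hm 0 (j c) ∈ R := fun c => (hC _).2 ⟨c, rfl⟩
  let ζ : C →+* R := ((zer k K).toRingHom.comp j).codRestrict R h0C
  have hζ : ∀ c, ((ζ c : R) : LP K) = hm 0 (j c) := fun c => rfl
  let Q : Ideal C := PP.comap ζ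
  have hQ : Q.IsPrime := Ideal.comap_isPrime _ _
  obtain ⟨ι, _, x, a, hxa, hind, hFI⟩ := hyp Q (by
    intro n y hn hy
    change ζ y ∈ PP
    have h1 : ζ y = (⟨hm (-1) 1, hT⟩ : R) ^ n * ⟨hm n (j y), hy⟩ := by
      apply Subtype.ext
      change hm 0 (j y) = (hm (-1) 1 : LP K) ^ n * hm n (j y)
      rw [T_pow, hm_mul, one_mul, neg_add_cancel]
    rw [h1]
    exact PP.mul_mem_right _ (PP.pow_mem_of_mem hPT n hn))
  let B := Localization.AtPrime Q
  have hdom : IsDomain C := hj.isDomain j
  have hu : ∀ s : Q.primeCompl, IsUnit (j s) := by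
    intro s
    rw [isUnit_iff_ne_zero]
    intro h1
    have h2 : (s : C) = 0 := hj (by rw [h1, map_zero])
    exact s.2 (by rw [h2]; exact Q.zero_mem)
  let jB : B →+* K := IsLocalization.lift hu
  let _ : Algebra B K := jB.toAlgebra
  have hjB : ∀ c, algebraMap B K (algebraMap C B c) = j c := fun c => IsLocalization.lift_eq hu c
  have hinj : Function.Injective (algebraMap B K) := by
    change Function.Injective (IsLocalization.lift hu : B →+* K)
    rw [IsLocalization.lift_injective_iff]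
    intro c d
    constructor
    · intro h
      have := congrArg (algebraMap B K) h
      rwa [hjB, hjB] at this
    · intro h
      rw [hj h]
  have hmk : ∀ (c : C) (s : Q.primeCompl),
      j s * algebraMap B K (IsLocalization.mk' B c s) = j c := by
    intro c s
    rw [← hjB, ← hjB, ← map_mul, mul_comm, IsLocalization.mk'_spec]
  set R' : Subalgebra B (LP K) := Algebra.adjoin B
    ({hm (-1) 1} ∪ Set.range fun i => hm (a i) (algebraMap B K (algebraMap C B (x i)))) with hR'
  have hT' : hm (-1) 1 ∈ R' := Algebra.subset_adjoin (Or.inl rfl)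
  have hx' : ∀ i, hm (a i) (algebraMap B K (algebraMap C B (x i))) ∈ R' := fun i =>
    Algebra.subset_adjoin (Or.inr ⟨i, rfl⟩)
  have h0B : ∀ b : B, hm 0 (algebraMap B K b) ∈ R' := fun b => R'.algebraMap_mem b
  have hle : ∀ f ∈ R, f ∈ R' := by
    intro f hf
    apply mem_of_comp R'
    intro d
    have h1 := hgr f hf d
    obtain ⟨c, hc⟩ := (hC _).1 (h0 _ _ h1)
    rw [← hc] at h1 ⊢
    rcases le_or_gt d 0 with hd | hd
    · apply mem_neg (R := R') hT' hd
      rw [← hjB]
      exact h0B _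
    · obtain ⟨n, rfl⟩ := Int.eq_ofNat_of_zero_le hd.le
      have h2 := FI_mem _ a R' hT' hx' n _ (hFI n c h1)
      rwa [hjB] at h2
  have h1Q : (1 : C) ∉ Q := fun h => hQ.ne_top ((Ideal.eq_top_iff_one _).2 h)
  have hge : ∀ f ∈ R', ∃ s, s ∉ Q ∧ hm 0 (j s) * f ∈ R := by
    intro f hf
    induction hf using Algebra.adjoin_induction with
    | mem f hf =>
      refine ⟨1, h1Q, ?_⟩
      rw [map_one, hm_one, one_mul]
      rcases hf with rfl | ⟨i, rfl⟩
      · exact hT
      · simp only [hjB]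
        exact (hxa i).2
    | algebraMap b =>
      obtain ⟨c, s, rfl⟩ := IsLocalization.exists_mk'_eq Q.primeCompl b
      refine ⟨s, s.2, ?_⟩
      rw [algebraMap_LP, hm_mul, hmk, zero_add]
      exact h0C c
    | add f g _ _ hf hg =>
      obtain ⟨s, hs, hs'⟩ := hf
      obtain ⟨t, ht, ht'⟩ := hg
      refine ⟨s * t, fun h => (hQ.mem_or_mem h).elim hs ht, ?_⟩
      have e : hm 0 (j (s * t)) * (f + g) =
          hm 0 (j t) * (hm 0 (j s) * f) + hm 0 (j s) * (hm 0 (j t) * g) := by
        have e1 : hm 0 (j (s * t)) = hm 0 (j s) * hm 0 (j t) := by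
          rw [hm_mul, map_mul, add_zero]
        rw [e1]
        ring
      rw [e]
      exact R.add_mem (R.mul_mem (h0C t) hs') (R.mul_mem (h0C s) ht')
    | mul f g _ _ hf hg =>
      obtain ⟨s, hs, hs'⟩ := hf
      obtain ⟨t, ht, ht'⟩ := hg
      refine ⟨s * t, fun h => (hQ.mem_or_mem h).elim hs ht, ?_⟩
      have e : hm 0 (j (s * t)) * (f * g) = (hm 0 (j s) * f) * (hm 0 (j t) * g) := by
        have e1 : hm 0 (j (s * t)) = hm 0 (j s) * hm 0 (j t) := by
          rw [hm_mul, map_mul, add_zero]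
        rw [e1]
        ring
      rw [e]
      exact R.mul_mem hs' ht'
  let inc : R →+* R' :=
    { toFun := fun f => ⟨f.1, hle f.1 f.2⟩
      map_one' := rfl
      map_mul' := fun _ _ => rfl
      map_zero' := rfl
      map_add' := fun _ _ => rfl }
  let _ : Algebra R R' := inc.toAlgebra
  have hinc : ∀ f : R, ((algebraMap R R' f : R') : LP K) = f := fun f => rfl
  let M : Submonoid R := Q.primeCompl.map (ζ : C →* R)
  have hloc : IsLocalization M R' := by
    refine ⟨⟨?_, ?_, ?_⟩⟩
    · rintro ⟨_, s, hs, rfl⟩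
      refine IsUnit.of_mul_eq_one ⟨hm 0 (algebraMap B K (IsLocalization.mk' B 1 ⟨s, hs⟩)), h0B _⟩ ?_
      apply Subtype.ext
      change hm 0 (j s) * hm 0 (algebraMap B K (IsLocalization.mk' B 1 ⟨s, hs⟩)) = 1
      rw [hm_mul]
      have h1 := hmk 1 ⟨s, hs⟩
      simp only at h1
      rw [h1, map_one, add_zero, hm_one]
    · rintro ⟨f, hf⟩
      obtain ⟨s, hs, hs'⟩ := hge f hf
      refine ⟨⟨⟨_, hs'⟩, ⟨ζ s, s, hs, rfl⟩⟩, ?_⟩
      apply Subtype.ext
      change f * hm 0 (j s) = hm 0 (j s) * f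
      rw [mul_comm]
    · intro f g hfg
      refine ⟨1, ?_⟩
      have h1 : (f : LP K) = g := congrArg (fun z : R' => (z : LP K)) hfg
      rw [Subtype.ext h1]
  refine reg_of_loc (B := R') M PP ?_ ?_
  · rw [Set.disjoint_left]
    rintro _ ⟨s, hs, rfl⟩ h1
    exact hs h1
  · intro p _ hp
    have hregB : IsRegularLocalRing B := inferInstance
    refine hreg B K hinj ι (fun i => algebraMap C B (x i)) hind a (fun i => (hxa i).1) R' rfl p ?_ ?_
    · intro h
      rw [hp]
      exact Ideal.mem_map_of_mem (algebraMap R R') hPT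
    · intro b hb
      obtain ⟨c, s, rfl⟩ := IsLocalization.exists_mk'_eq Q.primeCompl b
      have hcQ : c ∈ Q := (IsLocalization.AtPrime.mk'_mem_maximal_iff B Q c s).1 hb
      have h1 : algebraMap B R' (IsLocalization.mk' B c s) =
          algebraMap B R' (IsLocalization.mk' B 1 s) * algebraMap R R' (ζ c) := by
        apply Subtype.ext
        change hm 0 (algebraMap B K (IsLocalization.mk' B c s)) =
          hm 0 (algebraMap B K (IsLocalization.mk' B 1 s)) * hm 0 (j c)
        rw [hm_mul, add_zero, ← hjB, ← map_mul, mul_comm, ← IsLocalization.mk'_eq_mul_mk'_one]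
      rw [h1, hp]
      exact Ideal.mul_mem_left _ _ (Ideal.mem_map_of_mem (algebraMap R R') hcQ)

/-- **G-WCH** -/
theorem t_WCH (hreg : S_WREG) : S_WCH := by
  intro k K _ _ _ R hnoeth hgr hT h0 C _ j hj hC hCreg hyp
  rw [isRegularRing_iff]
  intro PP hPP
  by_cases hPT : (⟨hm (-1) 1, hT⟩ : R) ∈ PP
  · exact case2 hreg hgr hT h0 hj hC hyp PP hPT
  · let _ := locAlg R hT
    have h1 : IsLocalization.Away (⟨hm (-1) 1, hT⟩ : R) (loc R (hm (-1) 1) hT) :=
      isLocalization_loc R hT (isUnit_hm one_ne_zero)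
    have h2 : IsRegularRing (loc R (hm (-1) 1) hT) := regular_case1 hgr hT h0 hj hC
    refine reg_of_loc (B := loc R (hm (-1) 1) hT) (Submonoid.powers (⟨hm (-1) 1, hT⟩ : R)) PP ?_ ?_
    · rw [Set.disjoint_left]
      rintro _ ⟨n, rfl⟩ h3
      exact hPT (hPP.mem_of_pow_mem n h3)
    · intro p _ _
      infer_instance

end Pool.Agent.Y563.GW
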